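import Pool.Agent.W172.WL.Stm

set_option autoImplicit false

open MeasureTheory Set Filter Topology Metric
open scoped ENNReal NNReal
open Pool.Agent.W172.WL

namespace Pool.Agent.W882.WL.Pos

theorem cell {b : ℕ} (hb : 2 ≤ b) (n : ℕ) {x : ℝ} (hx : x ∈ Icc (0:ℝ) 1) :
    ∃ z : ℕ, z < b ^ n ∧ x ∈ Icc ((z : ℝ) / (b : ℝ) ^ n) (((z : ℝ) + 1) / (b : ℝ) ^ n) := by
  have hb0 : (0:ℝ) < (b:ℝ) ^ n := by positivity
  have hbn : 0 < b ^ n := by positivity
  rcases lt_or_eq_of_le hx.2 with h | h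
  · refine ⟨⌊(b:ℝ) ^ n * x⌋₊, ?_, ?_, ?_⟩
    · rw [Nat.floor_lt (mul_nonneg hb0.le hx.1)]
      push_cast
      nlinarith
    · rw [div_le_iff₀ hb0, mul_comm x]
      exact Nat.floor_le (mul_nonneg hb0.le hx.1)
    · rw [le_div_iff₀ hb0, mul_comm x]
      exact (Nat.lt_floor_add_one _).le
  · refine ⟨b ^ n - 1, by omega, ?_, ?_⟩
    · rw [div_le_iff₀ hb0, h, one_mul]
      have : ((b ^ n - 1 : ℕ) : ℝ) ≤ ((b ^ n : ℕ) : ℝ) := by exact_mod_cast Nat.sub_le _ _
      push_cast at this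
      exact this
    · rw [le_div_iff₀ hb0, h, one_mul]
      have : ((b ^ n : ℕ) : ℝ) = ((b ^ n - 1 : ℕ) : ℝ) + 1 := by
        rw [Nat.cast_sub (by omega)]; simp
      rw [← this]
      push_cast
      exact le_rfl

theorem pos : S_POS := by
  intro b α hb hα0 hα1 f hf hU E hE h0
  obtain ⟨C0, hC0⟩ := hf
  obtain ⟨M, hM⟩ := hU
  -- positive constant
  set C : ℝ := |C0| + 1 with hCdef
  have hCpos : 0 < C := by positivity
  have hC : ∀ x y, |f x - f y| ≤ C * |x - y| ^ α := fun x y => by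
    refine (hC0 x y).trans (mul_le_mul_of_nonneg_right ?_ (by positivity))
    have := le_abs_self C0
    rw [hCdef]; linarith
  have hb1 : (1:ℝ) < b := by exact_mod_cast (by omega : 1 < b)
  have hbp : (0:ℝ) < b := by linarith
  have hcont : Continuous f := by
    rw [Metric.continuous_iff]
    intro x ε hε
    have ht : Tendsto (fun y : ℝ => C * |y - x| ^ α) (𝓝 x) (𝓝 0) := by
      have h1 : Tendsto (fun y : ℝ => |y - x|) (𝓝 x) (𝓝 |x - x|) :=
        ((continuous_id.sub continuous_const).abs).tendsto x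
      rw [sub_self, abs_zero] at h1
      have h2 := (h1.rpow_const (p := α) (Or.inr hα0.le)).const_mul C
      rwa [Real.zero_rpow hα0.ne', mul_zero] at h2
    have h3 := (ht.eventually (gt_mem_nhds hε))
    rw [Metric.eventually_nhds_iff] at h3
    obtain ⟨δ, hδ, h4⟩ := h3
    refine ⟨δ, hδ, fun y hy => ?_⟩
    rw [Real.dist_eq]
    exact (hC y x).trans_lt (h4 hy)
  set E0 : Set ℝ := E ∩ f '' Icc (0:ℝ) 1 with hE0
  have hE0m : MeasurableSet E0 := hE.inter (isCompact_Icc.image hcont).measurableSet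
  by_contra hne
  have hnb : NeBot (ae (volume.restrict E0)) := by
    rw [ae_restrict_neBot]; exact hne
  obtain ⟨y, hyt, hyE⟩ := ((Besicovitch.ae_tendsto_measure_inter_div (volume : Measure ℝ) E0).and
    (ae_restrict_mem hE0m)).exists
  obtain ⟨x0, hx0, hfx0⟩ := hyE.2
  -- radii
  set r : ℕ → ℝ := fun n => C * (b : ℝ) ^ (-(α * n)) with hr
  have hrpos : ∀ n, 0 < r n := fun n => by positivity
  have hrlim : Tendsto r atTop (𝓝[>] 0) := by
    rw [tendsto_nhdsWithin_iff]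
    refine ⟨?_, Eventually.of_forall fun n => hrpos n⟩
    have h1 : ∀ n : ℕ, r n = C * ((b:ℝ) ^ (-α)) ^ n := fun n => by
      rw [hr]
      simp only
      rw [← Real.rpow_natCast, ← Real.rpow_mul hbp.le]
      congr 2
      ring
    have h2 : Tendsto (fun n : ℕ => C * ((b:ℝ) ^ (-α)) ^ n) atTop (𝓝 (C * 0)) := by
      refine (tendsto_pow_atTop_nhds_zero_of_lt_one (by positivity) ?_).const_mul C
      exact Real.rpow_lt_one_of_one_lt_of_neg hb1 (by linarith)
    rw [mul_zero] at h2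
    exact h2.congr fun n => (h1 n).symm
  have hT := hyt.comp hrlim
  set v : ℕ → ℝ := fun n => (volume (closedBall y (r n) \ E0)).toReal with hv
  set ρ : ℕ → ℝ := fun n => (volume (E0 ∩ closedBall y (r n)) / volume (closedBall y (r n))).toReal with hρ
  have hρlim : Tendsto ρ atTop (𝓝 1) := by
    have := (ENNReal.tendsto_toReal (a := 1) (by simp)).comp hT
    rw [ENNReal.toReal_one] at this
    exact this
  have hballR : ∀ n, (volume (closedBall y (r n))).toReal = 2 * r n := fun n => by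
    rw [Real.volume_closedBall, ENNReal.toReal_ofReal (by have := hrpos n; linarith)]
  have hballfin : ∀ n, volume (closedBall y (r n)) ≠ ∞ := fun n => by
    rw [Real.volume_closedBall]; exact ENNReal.ofReal_ne_top
  have hvρ : ∀ n, v n = 2 * r n * (1 - ρ n) := fun n => by
    have h1 : volume (closedBall y (r n)) = volume (closedBall y (r n) ∩ E0) +
      volume (closedBall y (r n) \ E0) := (measure_inter_add_sdiff _ hE0m).symm
    have h2 : (volume (closedBall y (r n))).toReal = (volume (closedBall y (r n) ∩ E0)).toReal + v n := by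
      rw [h1, ENNReal.toReal_add]
      · exact ne_top_of_le_ne_top (hballfin n) (measure_mono inter_subset_left)
      · exact ne_top_of_le_ne_top (hballfin n) (measure_mono sdiff_subset)
    have h3 : ρ n = (volume (closedBall y (r n) ∩ E0)).toReal / (2 * r n) := by
      rw [hρ]
      simp only
      rw [ENNReal.toReal_div, hballR, inter_comm]
    rw [hballR] at h2
    have h4 := hrpos n
    rw [h3, mul_sub, mul_one, mul_div_cancel₀ _ (by positivity)]
    linarith
  -- main inequality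
  have hkey : ∀ n : ℕ, 1 ≤ (M:ℝ) ^ 2 * C * (2 * (1 - ρ n)) := fun n => by
    obtain ⟨z, hz, hxz⟩ := cell hb n hx0
    have hbn : (0:ℝ) < (b:ℝ) ^ n := by positivity
    have hsub : Ico ((z : ℝ) / (b : ℝ) ^ n) (((z : ℝ) + 1) / (b : ℝ) ^ n) ⊆
        {x : ℝ | x ∈ Ico (0:ℝ) 1 ∧ f x ∈ E} ∪
        {x : ℝ | x ∈ Ico ((z : ℝ) / (b : ℝ) ^ n) (((z : ℝ) + 1) / (b : ℝ) ^ n) ∧
          f x ∈ closedBall y (r n) \ E} := by
      intro x hx
      by_cases hxE : f x ∈ E
      · left
        refine ⟨⟨le_trans (by positivity) hx.1, lt_of_lt_of_le hx.2 ?_⟩, hxE⟩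
        rw [div_le_one hbn]
        exact_mod_cast hz
      · right
        refine ⟨hx, ?_, hxE⟩
        rw [mem_closedBall, Real.dist_eq, ← hfx0]
        refine (hC x x0).trans ?_
        rw [hr]
        simp only
        refine mul_le_mul_of_nonneg_left ?_ hCpos.le
        have h5 : |x - x0| ≤ 1 / (b:ℝ) ^ n := by
          have e : ((z : ℝ) + 1) / (b : ℝ) ^ n = (z:ℝ) / (b:ℝ) ^ n + 1 / (b:ℝ) ^ n := by ring
          rw [e] at hx hxz
          rw [abs_le]
          constructor <;> linarith [hx.1, hx.2, hxz.1, hxz.2]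
        refine (Real.rpow_le_rpow (abs_nonneg _) h5 hα0.le).trans (le_of_eq ?_)
        rw [one_div, ← Real.rpow_natCast, ← Real.rpow_neg hbp.le, ← Real.rpow_mul hbp.le]
        congr 1
        ring
    have hvol : ENNReal.ofReal (1 / (b:ℝ) ^ n) ≤ (M : ℝ≥0∞) *
        ENNReal.ofReal ((b : ℝ) ^ (-((1 - α / 2) * n))) * (volume (closedBall y (r n) \ E)) ^ (1 / 2 : ℝ) := by
      have h6 := measure_mono (μ := volume) hsub
      rw [Real.volume_Ico] at h6
      have e : ((z : ℝ) + 1) / (b : ℝ) ^ n - (z : ℝ) / (b : ℝ) ^ n = 1 / (b:ℝ) ^ n := by ring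
      rw [e] at h6
      refine h6.trans ((measure_union_le _ _).trans ?_)
      rw [h0, zero_add]
      exact hM n z hz _ (measurableSet_closedBall.diff hE)
    have hvol2 : ENNReal.ofReal (1 / (b:ℝ) ^ n) ≤ (M : ℝ≥0∞) *
        ENNReal.ofReal ((b : ℝ) ^ (-((1 - α / 2) * n))) * (volume (closedBall y (r n) \ E0)) ^ (1 / 2 : ℝ) := by
      refine hvol.trans (mul_le_mul_right ?_ _)
      refine ENNReal.rpow_le_rpow (measure_mono ?_) (by norm_num)
      exact sdiff_subset_sdiff_right inter_subset_left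
    have hvfin : volume (closedBall y (r n) \ E0) ≠ ∞ :=
      ne_top_of_le_ne_top (hballfin n) (measure_mono sdiff_subset)
    have hvolR : 1 / (b:ℝ) ^ n ≤ (M:ℝ) * (b : ℝ) ^ (-((1 - α / 2) * n)) * (v n) ^ (1/2 : ℝ) := by
      have h7 := ENNReal.toReal_mono ?_ hvol2
      · rw [ENNReal.toReal_ofReal (by positivity), ENNReal.toReal_mul, ENNReal.toReal_mul,
          ENNReal.toReal_ofReal (by positivity), ← ENNReal.toReal_rpow] at h7
        exact h7
      · refine ENNReal.mul_ne_top (ENNReal.mul_ne_top (by simp) ENNReal.ofReal_ne_top) ?_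
        exact ENNReal.rpow_ne_top_of_nonneg (by norm_num) hvfin
    -- square
    have hv0 : 0 ≤ v n := ENNReal.toReal_nonneg
    have hsq : (v n ^ (1/2:ℝ)) ^ 2 = v n := by
      rw [← Real.sqrt_eq_rpow, Real.sq_sqrt hv0]
    have h8 : (1 / (b:ℝ) ^ n) ^ 2 ≤ (M:ℝ) ^ 2 * ((b : ℝ) ^ (-((1 - α / 2) * n))) ^ 2 * v n := by
      have := pow_le_pow_left₀ (by positivity) hvolR 2
      rw [mul_pow, mul_pow, hsq] at this
      exact this
    have h9 : (1 / (b:ℝ) ^ n) ^ 2 = (b:ℝ) ^ (-(2 * (n:ℝ))) := by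
      rw [one_div, inv_pow, ← pow_mul, ← Real.rpow_natCast, ← Real.rpow_neg hbp.le]
      congr 1
      push_cast
      ring
    have h10 : ((b : ℝ) ^ (-((1 - α / 2) * n))) ^ 2 = (b:ℝ) ^ (-(2 * (n:ℝ))) * (b:ℝ) ^ (α * n) := by
      rw [← Real.rpow_natCast, ← Real.rpow_mul hbp.le, ← Real.rpow_add hbp]
      congr 1
      push_cast
      ring
    rw [h9, h10, hvρ] at h8
    have hA : 0 < (b:ℝ) ^ (-(2 * (n:ℝ))) := by positivity
    have h11 : (b:ℝ) ^ (α * n) * r n = C := by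
      rw [hr]
      simp only
      rw [mul_left_comm, ← Real.rpow_add hbp, add_neg_cancel, Real.rpow_zero, mul_one]
    have h12 : (b:ℝ) ^ (-(2 * (n:ℝ))) * 1 ≤ (b:ℝ) ^ (-(2 * (n:ℝ))) * ((M:ℝ) ^ 2 * C * (2 * (1 - ρ n))) := by
      calc (b:ℝ) ^ (-(2 * (n:ℝ))) * 1 ≤ (M:ℝ) ^ 2 * ((b:ℝ) ^ (-(2 * (n:ℝ))) * (b:ℝ) ^ (α * n)) *
            (2 * r n * (1 - ρ n)) := by rw [mul_one]; exact h8
        _ = (b:ℝ) ^ (-(2 * (n:ℝ))) * ((M:ℝ) ^ 2 * ((b:ℝ) ^ (α * n) * r n) * (2 * (1 - ρ n))) := by ring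
        _ = _ := by rw [h11]
    exact le_of_mul_le_mul_left h12 hA
  have hlim : Tendsto (fun n => (M:ℝ) ^ 2 * C * (2 * (1 - ρ n))) atTop (𝓝 ((M:ℝ) ^ 2 * C * (2 * (1 - 1)))) :=
    ((tendsto_const_nhds.sub hρlim).const_mul 2).const_mul _
  have := ge_of_tendsto' hlim hkey
  norm_num at this

end Pool.Agent.W882.WL.Pos
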